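import Pool.Agent.H54.Larsen.MainAll

/-! Larsen's conjecture for elliptic curves, in every characteristic: infinite rank over the
fixed field of every finite tuple of elements of the absolute Galois group. -/

namespace Pool.Agent.Results.MP_6b5a9a_nt.EllipticCurves

/-- Let `F` be an infinite finitely generated field or, more generally, any field of
characteristic zero or any field which is not perfect. Let `σ` be a finite tuple of elements of the
absolute Galois group of `F` (possibly empty), and `K` the subfield of the separable closure fixed
by `σ`. Then every elliptic curve over `K` (for instance the base change of any elliptic curve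
over `F`) has infinite Mordell-Weil rank over `K`. -/
theorem result {F : Type*} [Field F]
    (hF : (Infinite F ∧ Field.FG F) ∨ CharZero F ∨ ¬ PerfectField F) (e : ℕ)
    (σ : Fin e → (SeparableClosure F ≃ₐ[F] SeparableClosure F))
    (E : WeierstrassCurve (IntermediateField.fixedField (Subgroup.closure (Set.range σ))))
    [E.IsElliptic]
    [DecidableEq (IntermediateField.fixedField (Subgroup.closure (Set.range σ)))] :
    Cardinal.aleph0 ≤ Module.rank ℤ E.toAffine.Point :=
  Pool.Agent.H54.Larsen.main_all hF (Subgroup.closure (Set.range σ))
    ((Subgroup.fg_iff _).2 ⟨Set.range σ, rfl, Set.finite_range σ⟩) E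

end Pool.Agent.Results.MP_6b5a9a_nt.EllipticCurves
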